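import Pool.Agent.K3h53.Cons.Core2

set_option autoImplicit false

/-!
# MP_4b405e_nt: the arithmetic Kakeya problem when the first terms form a gradient field

A set `B ⊆ ℝ^n` contains the progressions `a r, a r + r, …, a r + (k-1) r` for all `r` in a nonempty
open set (or in the cube `[0,1]^n`), where the first term is `a = ∇g + b` with a function `g` which is
differentiable at every point and a locally Lipschitz map `b`. Nothing else is assumed: `∇g` may be
discontinuous, and if it is continuous it may be of no Hölder class. Then `B` has positive Hausdorff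
measure of dimension `n - ⌊n/k⌋`, and positive volume if `k ≥ n + 1`. The least Hausdorff dimension and
the least upper Minkowski dimension are exactly `n - ⌊n/k⌋`, and the possible dimensions `d t` of the
sets `{a r + t r}`, for `t` in any finite set `T` of real numbers, are characterised by
`∑_{t ∈ T} (n - d t) ≤ n`.

Proof. The starting files on Kakeya sets with conservative families of lines (proximal points and the
theorem of Minty) give, for a large `τ`, a set `Y` of positive measure and a Lipschitz map `Q` of `Y`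
into the open set with `a (Q y) + τ Q y = y`. Hence `a (Q y) + t Q y = y + (t - τ) Q y`, and Rademacher's
theorem can be applied in the variable `y`: if this slice is small, the large principal minors of
`1 + (t - τ) DQ` vanish almost everywhere, so `1 / (t - τ)` is an eigenvalue of `- DQ` of multiplicity at
least `n - d t`. -/

open MeasureTheory Set Filter Topology
open scoped ENNReal

namespace Pool.Agent.Results.MP_4b405e_nt.ConservativeProgressions

/-- `ℝ^n` with its Euclidean norm. -/
abbrev E (n : ℕ) := EuclideanSpace ℝ (Fin n)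

/-- `a = ∇g + b` on `U`, where `g` is differentiable at every point of `U` and `b` is locally
Lipschitz on `U`. -/
def Conservative {n : ℕ} (a : E n → E n) (U : Set (E n)) : Prop :=
  ∃ (g : E n → ℝ) (b : E n → E n), (∀ r ∈ U, DifferentiableAt ℝ g r) ∧ LocallyLipschitzOn U b ∧
    ∀ r ∈ U, a r = gradient g r + b r

/-- The cube `[0,1]^n` of common differences. -/
def cube (n : ℕ) : Set (E n) := {r | ∀ i, r i ∈ Set.Icc (0 : ℝ) 1}

/-- `B` contains a `k`-term progression with every common difference `r ∈ [0,1]^n`, and its first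
term can be chosen as a function of `r` which is conservative, up to a locally Lipschitz error, in
the interior of the cube. -/
def HasConservative {n : ℕ} (k : ℕ) (B : Set (E n)) : Prop :=
  ∃ a : E n → E n, Conservative a (interior (cube n)) ∧
    ∀ r ∈ cube n, ∀ j : ℕ, j < k → a r + (j : ℝ) • r ∈ B

/-- The least number of sets of diameter at most `δ` covering `B` (for bounded `B`). -/
noncomputable def coverNum {n : ℕ} (B : Set (EuclideanSpace ℝ (Fin n))) (δ : ℝ) : ℕ :=
  sInf {N | ∃ U : Fin N → Set (EuclideanSpace ℝ (Fin n)),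
    (∀ i, ∀ x ∈ U i, ∀ y ∈ U i, dist x y ≤ δ) ∧ B ⊆ ⋃ i, U i}

/-- Upper Minkowski dimension (upper box-counting dimension). -/
noncomputable def upperMinkowski {n : ℕ} (B : Set (EuclideanSpace ℝ (Fin n))) : EReal :=
  limsup (fun δ : ℝ => ((Real.log (coverNum B δ) / Real.log (1 / δ) : ℝ) : EReal)) (𝓝[>] 0)

theorem prog {n k : ℕ} (hk : 1 ≤ k) {U : Set (E n)} (hU : IsOpen U)
    (hUn : U.Nonempty) {a : E n → E n} (ha : Conservative a U) {B : Set (E n)}
    (hB : ∀ r ∈ U, ∀ j : ℕ, j < k → a r + (j : ℝ) • r ∈ B) :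
    Measure.hausdorffMeasure ((n - n / k : ℕ) : ℝ) B ≠ 0 := by
  obtain ⟨g, b, hg, hb, hab⟩ := ha
  intro h0
  rcases Nat.eq_zero_or_pos (n - n / k) with hq | hq
  · rw [hq, Nat.cast_zero] at h0
    obtain ⟨r, hr⟩ := hUn
    have h1 : (Measure.hausdorffMeasure (0 : ℝ) : Measure (E n)) {a r + ((0 : ℕ) : ℝ) • r} = 0 :=
      measure_mono_null (by
        rw [Set.singleton_subset_iff]
        exact hB r hr 0 (by omega)) h0
    rw [Measure.hausdorffMeasure_zero_singleton] at h1
    exact one_ne_zero h1
  · set T : Finset ℝ := (Finset.range k).map ⟨fun j : ℕ => (j : ℝ), Nat.cast_injective⟩ with hT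
    have h1 := Pool.Agent.K3h53.Cons.slices_dim hU hUn hg hb T (fun _ => B)
      (fun _ => n - n / k - 1) (by
      intro t ht r hr
      obtain ⟨j, hj, rfl⟩ := Finset.mem_map.1 ht
      rw [← hab r hr]
      exact hB r hr j (Finset.mem_range.1 hj)) (by
      intro t _
      have h2 : ((n - n / k - 1 : ℕ) : ℝ) + 1 = ((n - n / k : ℕ) : ℝ) := by
        have : n - n / k - 1 + 1 = n - n / k := by omega
        exact_mod_cast this
      rw [h2]
      exact h0)
    rw [Finset.sum_const, hT, Finset.card_map, Finset.card_range, smul_eq_mul] at h1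
    have h2 : n - (n - n / k - 1) = n / k + 1 := by
      have h3 := Nat.div_le_self n k
      generalize n / k = q at h3 hq ⊢
      omega
    rw [h2] at h1
    have h3 := Nat.lt_mul_div_succ n (show 0 < k by omega)
    omega

theorem interior_cube_nonempty (n : ℕ) : (interior (cube n)).Nonempty := by
  have h := Pool.Agent.R462.HP.open_cube n
  refine ⟨WithLp.toLp 2 (fun _ => 1 / 2), mem_interior.2
    ⟨{r : E n | ∀ i, r i ∈ Set.Ioo (0 : ℝ) 1}, fun r hr i => ⟨(hr i).1.le, (hr i).2.le⟩, h, ?_⟩⟩
  intro i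
  constructor
  · change (0 : ℝ) < 1 / 2; norm_num
  · change (1 / 2 : ℝ) < 1; norm_num

theorem lower {n k : ℕ} (hk : 1 ≤ k) {B : Set (E n)} (hB : HasConservative k B) :
    Measure.hausdorffMeasure ((n - n / k : ℕ) : ℝ) B ≠ 0 := by
  obtain ⟨a, ha, hp⟩ := hB
  exact prog hk isOpen_interior (interior_cube_nonempty n) ha
    (fun r hr j hj => hp r (interior_subset hr) j hj)

theorem conservative_of_lipschitz {n : ℕ} {a : E n → E n} {S U : Set (E n)} (hUS : U ⊆ S) {C : ℝ}
    (h : ∀ r ∈ S, ∀ r' ∈ S, ‖a r - a r'‖ ≤ C * ‖r - r'‖) : Conservative a U := by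
  refine ⟨fun _ => 0, a, fun r _ => differentiableAt_const _, ?_, fun r _ => ?_⟩
  · have h1 : LipschitzOnWith (Real.toNNReal |C|) a U := by
      refine LipschitzOnWith.of_dist_le_mul fun r hr r' hr' => ?_
      rw [Real.coe_toNNReal _ (abs_nonneg C), dist_eq_norm, dist_eq_norm]
      refine (h r (hUS hr) r' (hUS hr')).trans ?_
      gcongr
      exact le_abs_self C
    exact fun r _ => ⟨_, U, self_mem_nhdsWithin, h1⟩
  · have : gradient (fun _ : E n => (0 : ℝ)) r = 0 := by simp
    rw [this, zero_add]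

theorem upper {n k : ℕ} (hk : 1 ≤ k) :
    ∃ B : Set (E n), Bornology.IsBounded B ∧ HasConservative k B ∧
      upperMinkowski B ≤ (((n - n / k : ℕ) : ℝ) : EReal) := by
  obtain ⟨B, hBb, ⟨a, ⟨C, hC⟩, hp⟩, hd⟩ :=
    Pool.Agent.R462.HP.upper (n := n) (k := k) hk (α := 1) le_rfl
  refine ⟨B, hBb, ⟨a, conservative_of_lipschitz (S := cube n) interior_subset (C := C) ?_, hp⟩, hd⟩
  intro r hr r' hr'
  have := hC r hr r' hr'
  rwa [Real.rpow_one] at this

theorem result :
    -- (1) the possible dimensions of the sets `{a r + t r}` for `t` in a finite set of real numbers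
    (∀ n : ℕ, 1 ≤ n → ∀ (T : Finset ℝ) (d : ℝ → ℕ), (∀ t ∈ T, d t ≤ n) →
      ((∃ (U : Set (E n)) (a : E n → E n), IsOpen U ∧ U.Nonempty ∧ Conservative a U ∧
          ∀ t ∈ T, Measure.hausdorffMeasure ((d t : ℝ) + 1) ((fun r => a r + t • r) '' U) = 0) ↔
        ∑ t ∈ T, (n - d t) ≤ n)) ∧
    -- (2) the exact least dimensions of sets with conservative progressions
    (∀ n k : ℕ, 1 ≤ n → 1 ≤ k →
      IsLeast {D : EReal | ∃ B : Set (E n), Bornology.IsBounded B ∧ HasConservative k B ∧
        upperMinkowski B = D} (((n - n / k : ℕ) : ℝ) : EReal) ∧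
      IsLeast {D : ℝ≥0∞ | ∃ B : Set (E n), Bornology.IsBounded B ∧ HasConservative k B ∧
        dimH B = D} ((n - n / k : ℕ) : ℝ≥0∞)) ∧
    -- (3) differences in an open set; positive volume for more than `n` terms
    (∀ n k : ℕ, 1 ≤ n → 1 ≤ k → ∀ U : Set (E n), IsOpen U → U.Nonempty → ∀ a : E n → E n,
      Conservative a U → ∀ B : Set (E n), (∀ r ∈ U, ∀ j : ℕ, j < k → a r + (j : ℝ) • r ∈ B) →
      0 < Measure.hausdorffMeasure ((n - n / k : ℕ) : ℝ) B ∧ (n < k → 0 < volume B)) := by
  refine ⟨?_, ?_, ?_⟩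
  · intro n hn T d hd
    constructor
    · rintro ⟨U, a, hU, hUn, ⟨g, b, hg, hb, hab⟩, h⟩
      exact Pool.Agent.K3h53.Cons.slices_dim hU hUn hg hb T
        (fun t => (fun r => a r + t • r) '' U) d (fun t _ r hr => ⟨r, hr, by
          simp only [hab r hr]⟩) h
    · intro h
      classical
      obtain ⟨τ, -, hτ⟩ := Pool.Agent.TH539.AlgProg.exists_tau (n := n) T d h
      refine ⟨univ, fun r => WithLp.toLp 2 (fun i => -(τ i * r i)), isOpen_univ, univ_nonempty,
        conservative_of_lipschitz (S := univ) subset_rfl (C := ∑ i, |τ i|) ?_, ?_⟩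
      · intro r _ r' _
        exact Pool.Agent.R462.HP.lipschitz_diag τ _ (fun i => Finset.single_le_sum
          (f := fun i => |τ i|) (fun i _ => abs_nonneg _) (Finset.mem_univ i))
          (Finset.sum_nonneg fun i _ => abs_nonneg _) r r'
      · intro t ht
        obtain ⟨S, hS1, hS2⟩ := hτ t ht
        refine measure_mono_null ?_ (Pool.Agent.R462.HP.coord_null (hd t ht) S hS1)
        rintro _ ⟨r, -, rfl⟩ i hi
        change -(τ i * r i) + t * r i = 0
        rw [hS2 i hi]
        ring
  · intro n k hn hk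
    obtain ⟨B, hBb, hBp, hBd⟩ := upper (n := n) hk
    have hM : ∀ B : Set (E n), Bornology.IsBounded B → HasConservative k B →
        (((n - n / k : ℕ) : ℝ) : EReal) ≤ upperMinkowski B :=
      fun B hb hB => Pool.Agent.R462.HP.le_upperMinkowski hb (Nat.cast_nonneg _) (lower hk hB)
    refine ⟨⟨⟨B, hBb, hBp, le_antisymm hBd (hM B hBb hBp)⟩, ?_⟩, ⟨⟨B, hBb, hBp, ?_⟩, ?_⟩⟩
    · rintro D ⟨B', hb, hp, rfl⟩
      exact hM B' hb hp
    · exact le_antisymm (Pool.Agent.R462.HP.dimH_le hBb hBd)
        (Pool.Agent.R462.HP.natCast_le_dimH (lower hk hBp))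
    · rintro D ⟨B', hb, hp, rfl⟩
      exact Pool.Agent.R462.HP.natCast_le_dimH (lower hk hp)
  · intro n k hn hk U hU hUn a ha B hB
    have h := prog hk hU hUn ha hB
    refine ⟨pos_iff_ne_zero.2 h, fun hnk => ?_⟩
    rw [Nat.div_eq_of_lt hnk, Nat.sub_zero] at h
    exact Pool.Agent.R462.HP.volume_pos h

end Pool.Agent.Results.MP_4b405e_nt.ConservativeProgressions
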