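import Pool.Agent.K3h53.SC.Count

set_option autoImplicit false

/-!
# MP_4b405e_nt: progressions in countable unions of semialgebraic sets and of convex sets

Let `B ⊆ ℝ^n` be a union of countably many sets, each of which is semialgebraic (of any degree and
dimension) or convex, and let `R` be a set of positive outer measure such that `B` contains a `k`-term
progression with every common difference in `R`. Then `B` has positive Hausdorff measure of dimension
`n - ⌊n/k⌋`, and positive volume if `k ≥ n + 1`. In this class the least Hausdorff dimension and the least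
upper Minkowski dimension of bounded sets with progressions for all differences in `[0,1]^n` are exactly
`n - ⌊n/k⌋`. Equivalently, no set with progressions (however wild) is covered by countably many
semialgebraic or convex sets of dimension less than `n - ⌊n/k⌋`.

Proof. For a set of differences of positive measure one sequence of pieces serves; a set of positive
measure is Zariski dense, so the algebraic form of the starting file `AlgebraicSets` applies to these
pieces; a convex set which satisfies no polynomial relation between some `d` coordinates has a projection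
with interior points, as for semialgebraic sets. -/

open MeasureTheory Set Filter Topology
open scoped ENNReal

namespace Pool.Agent.Results.MP_4b405e_nt.CountableUnions

/-- `ℝ^n` with its Euclidean norm. -/
abbrev E (n : ℕ) := EuclideanSpace ℝ (Fin n)

/-- Semialgebraic sets: membership of `x` depends only on the signs of finitely many polynomials
at `x`. -/
def Semialgebraic {n : ℕ} (S : Set (E n)) : Prop :=
  ∃ Q : Finset (MvPolynomial (Fin n) ℝ), ∀ x y : E n,
    (∀ q ∈ Q, SignType.sign (MvPolynomial.eval (fun i => x i) q) =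
      SignType.sign (MvPolynomial.eval (fun i => y i) q)) → x ∈ S → y ∈ S

/-- `B` is a union of countably many sets, each of which is convex or semialgebraic. -/
def CUnion {n : ℕ} (B : Set (E n)) : Prop :=
  ∃ S : ℕ → Set (E n), (∀ j, Convex ℝ (S j) ∨ Semialgebraic (S j)) ∧ B = ⋃ j, S j

/-- `B` contains a `k`-term progression with every common difference in `R`. -/
def HasProg {n : ℕ} (k : ℕ) (R B : Set (E n)) : Prop :=
  ∀ r ∈ R, ∃ a : E n, ∀ j : ℕ, j < k → a + (j : ℝ) • r ∈ B

/-- The cube `[0,1]^n` of common differences. -/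
def cube (n : ℕ) : Set (E n) := {r | ∀ i, r i ∈ Set.Icc (0 : ℝ) 1}

/-- The least number of sets of diameter at most `δ` covering `B` (for bounded `B`). -/
noncomputable def coverNum {n : ℕ} (B : Set (EuclideanSpace ℝ (Fin n))) (δ : ℝ) : ℕ :=
  sInf {N | ∃ U : Fin N → Set (EuclideanSpace ℝ (Fin n)),
    (∀ i, ∀ x ∈ U i, ∀ y ∈ U i, dist x y ≤ δ) ∧ B ⊆ ⋃ i, U i}

/-- Upper Minkowski dimension (upper box-counting dimension). -/
noncomputable def upperMinkowski {n : ℕ} (B : Set (EuclideanSpace ℝ (Fin n))) : EReal :=
  limsup (fun δ : ℝ => ((Real.log (coverNum B δ) / Real.log (1 / δ) : ℝ) : EReal)) (𝓝[>] 0)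

/-- **Progressions in countable unions of semialgebraic sets and of convex sets.** -/
theorem result (n k : ℕ) (hk : 1 ≤ k) :
    (∀ B : Set (E n), CUnion B → ∀ R : Set (E n), volume R ≠ 0 → HasProg k R B →
      0 < Measure.hausdorffMeasure ((n - n / k : ℕ) : ℝ) B ∧ (n < k → 0 < volume B)) ∧
    IsLeast {D : EReal | ∃ B : Set (E n), Bornology.IsBounded B ∧ CUnion B ∧
      HasProg k (cube n) B ∧ upperMinkowski B = D} (((n - n / k : ℕ) : ℝ) : EReal) ∧
    IsLeast {D : ℝ≥0∞ | ∃ B : Set (E n), Bornology.IsBounded B ∧ CUnion B ∧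
      HasProg k (cube n) B ∧ dimH B = D} ((n - n / k : ℕ) : ℝ≥0∞) := by
  have hlow : ∀ B : Set (E n), CUnion B → HasProg k (cube n) B →
      Measure.hausdorffMeasure ((n - n / k : ℕ) : ℝ) B ≠ 0 := fun B hB h =>
    Pool.Agent.K3h53.SC.countable_lower hk hB (Pool.Agent.K3h53.SC.volume_cube n) h
  have hM : ∀ B : Set (E n), Bornology.IsBounded B → CUnion B → HasProg k (cube n) B →
      (((n - n / k : ℕ) : ℝ) : EReal) ≤ upperMinkowski B := fun B hb hB h =>
    Pool.Agent.R462.HP.le_upperMinkowski hb (Nat.cast_nonneg _) (hlow B hB h)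
  obtain ⟨B, hb, hB, hp, hd⟩ := Pool.Agent.K3h53.SC.exists_example (n := n) hk
  refine ⟨fun B hB R hR h => ?_, ⟨⟨B, hb, hB, hp, le_antisymm hd (hM B hb hB hp)⟩, ?_⟩,
    ⟨B, hb, hB, hp, ?_⟩, ?_⟩
  · have h1 := Pool.Agent.K3h53.SC.countable_lower hk hB hR h
    refine ⟨pos_iff_ne_zero.2 h1, fun hnk => ?_⟩
    rw [Nat.div_eq_of_lt hnk, Nat.sub_zero] at h1
    exact Pool.Agent.R462.HP.volume_pos h1
  · rintro D ⟨B', hb', hB', hp', rfl⟩
    exact hM B' hb' hB' hp'
  · exact le_antisymm (Pool.Agent.R462.HP.dimH_le hb hd)
      (Pool.Agent.R462.HP.natCast_le_dimH (hlow B hB hp))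
  · rintro D ⟨B', hb', hB', hp', rfl⟩
    exact Pool.Agent.R462.HP.natCast_le_dimH (hlow B' hB' hp')

end Pool.Agent.Results.MP_4b405e_nt.CountableUnions
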