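import Pool.Agent.K3h53.SC.Core

set_option autoImplicit false

/-!
# MP_4b405e_nt: progressions in sets covered by semialgebraic or convex pieces

Let `B ⊆ ℝ^n` contain an `(n + 1)`-term progression with every common difference in `R`. If `B` is
covered by `N` semialgebraic sets of degree at most `D` (or by `N` convex sets, the case `D = 0`) of
total volume at most `m`, then `c |R| ≤ N ^ n (D + 1) ^ (n ^ 2) m`, with `c > 0` depending on `n` only.

Hence the conjecture of Q1 holds for all bounded sets `B` which at arbitrarily small scales `δ` have an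
efficient cover by few pieces: if the numbers of the pieces and their degrees are at most `δ ^ (-γ)` and
the total volume is at most `δ ^ (-γ)` times the volume of the `δ`-neighbourhood of `B`, then the upper
Minkowski dimension of `B` is at least `n - (n ^ 2 + n + 1) γ`. The set `B` itself is arbitrary.

The proof applies the velocity estimate of the starting files on Kakeya sets with semialgebraic slices
(lines meeting `n + 1` unrelated semialgebraic sets) to the heights `0, 1, …, n`. -/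

open MeasureTheory Set Metric Filter Topology
open scoped ENNReal

namespace Pool.Agent.Results.MP_4b405e_nt.SemialgebraicCovers

/-- `ℝ^n` with its Euclidean norm. -/
abbrev E (n : ℕ) := EuclideanSpace ℝ (Fin n)

/-- `B` contains a `k`-term progression with every common difference in `R`. -/
def HasProg {n : ℕ} (k : ℕ) (R B : Set (E n)) : Prop :=
  ∀ r ∈ R, ∃ a : E n, ∀ j : ℕ, j < k → a + (j : ℝ) • r ∈ B

/-- `S ⊆ ℝ^n` is given by finitely many polynomial inequalities `P i > 0` and `Q j ≥ 0`, the total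
degrees of the polynomials adding up to at most `D`. -/
def Basic {n : ℕ} (D : ℕ) (S : Set (E n)) : Prop :=
  ∃ (a b : ℕ) (P : Fin a → MvPolynomial (Fin n) ℝ) (Q : Fin b → MvPolynomial (Fin n) ℝ),
    ∑ i, (P i).totalDegree + ∑ j, (Q j).totalDegree ≤ D ∧
    S = {x | (∀ i, 0 < MvPolynomial.eval (fun l => x l) (P i)) ∧
      ∀ j, 0 ≤ MvPolynomial.eval (fun l => x l) (Q j)}

/-- A piece of degree `D`: a convex set if `D = 0`, a basic semialgebraic set of degree at most `D`
otherwise. -/
def Piece {n : ℕ} (D : ℕ) (S : Set (E n)) : Prop := if D = 0 then Convex ℝ S else Basic D S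

/-- `A` is covered by `N` pieces of degree `D` of total volume at most `m`. -/
def Cover {n : ℕ} (N D : ℕ) (m : ℝ≥0∞) (A : Set (E n)) : Prop :=
  ∃ S : Fin N → Set (E n), (∀ j, Piece D (S j)) ∧ A ⊆ ⋃ j, S j ∧ ∑ j, volume (S j) ≤ m

/-- At arbitrarily small scales `δ` the set `B` is covered by at most `δ ^ (-γ)` pieces of degree at most
`δ ^ (-γ)`, of total volume at most `δ ^ (-γ)` times the volume of the `δ`-neighbourhood of `B`. -/
def Tame {n : ℕ} (γ : ℝ) (B : Set (E n)) : Prop :=
  ∃ᶠ δ : ℝ in 𝓝[>] 0, ∃ N D : ℕ, (N : ℝ) ≤ δ ^ (-γ) ∧ (D : ℝ) ≤ δ ^ (-γ) ∧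
    Cover N D (ENNReal.ofReal (δ ^ (-γ)) * volume (thickening δ B)) B

/-- The least number of sets of diameter at most `δ` covering `B` (for bounded `B`). -/
noncomputable def coverNum {n : ℕ} (B : Set (EuclideanSpace ℝ (Fin n))) (δ : ℝ) : ℕ :=
  sInf {N | ∃ U : Fin N → Set (EuclideanSpace ℝ (Fin n)),
    (∀ i, ∀ x ∈ U i, ∀ y ∈ U i, dist x y ≤ δ) ∧ B ⊆ ⋃ i, U i}

/-- Upper Minkowski dimension (upper box-counting dimension). -/
noncomputable def upperMinkowski {n : ℕ} (B : Set (EuclideanSpace ℝ (Fin n))) : EReal :=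
  limsup (fun δ : ℝ => ((Real.log (coverNum B δ) / Real.log (1 / δ) : ℝ) : EReal)) (𝓝[>] 0)

/-- **Progressions in sets covered by semialgebraic or convex pieces.** -/
theorem result (n : ℕ) (hn : 1 ≤ n) :
    (∃ c : ℝ, 0 < c ∧ ∀ (R B : Set (E n)) (N D : ℕ) (m : ℝ≥0∞),
      HasProg (n + 1) R B → Cover N D m B →
      ENNReal.ofReal c * volume R ≤ (N : ℝ≥0∞) ^ n * ((D : ℝ≥0∞) + 1) ^ (n ^ 2) * m) ∧
    (∀ R B : Set (E n), Bornology.IsBounded B → volume R ≠ 0 → HasProg (n + 1) R B →
      (∀ γ : ℝ, 0 ≤ γ → Tame γ B →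
        (((n : ℝ) - ((n : ℝ) ^ 2 + n + 1) * γ : ℝ) : EReal) ≤ upperMinkowski B) ∧
      ((∀ γ : ℝ, 0 < γ → Tame γ B) → ((n : ℝ) : EReal) ≤ upperMinkowski B)) := by
  refine ⟨Pool.Agent.K3h53.SC.main_ineq' hn, fun R B hB hR h => ⟨fun γ hγ hT =>
    Pool.Agent.K3h53.SC.mink hn hB hR h hγ hT, fun hT => ?_⟩⟩
  refine le_of_forall_lt fun x hx => ?_
  obtain ⟨y, hxy, hy⟩ := EReal.lt_iff_exists_real_btwn.mp hx
  refine lt_of_lt_of_le hxy ?_
  have hy' : y < (n : ℝ) := by exact_mod_cast hy
  have hpos : (0 : ℝ) < (n : ℝ) ^ 2 + n + 1 := by positivity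
  have h1 := Pool.Agent.K3h53.SC.mink hn hB hR h
    (γ := ((n : ℝ) - y) / ((n : ℝ) ^ 2 + n + 1)) (by
      have : 0 < (n : ℝ) - y := by linarith
      positivity) (hT _ (by
      have : 0 < (n : ℝ) - y := by linarith
      positivity))
  rw [mul_div_cancel₀ _ hpos.ne', sub_sub_cancel] at h1
  exact h1

end Pool.Agent.Results.MP_4b405e_nt.SemialgebraicCovers
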