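import Pool.Agent.K3h57.AP
import Pool.Agent.K3h57.AP5
import Pool.Agent.K3h53.AP.Port

/-!
# Progressions with three, four and five terms

Lower bounds for `f^M_n(k)` for small `k`: `f^M_n(3) ≥ 45 n / 82`, `f^M_n(4) ≥ 16 n / 29` and
`f^M_n(k) ≥ 4 n / 7` for `k ≥ 5`; the same for the lower Minkowski dimension, for coverings at every
scale and for an arbitrary set of common differences; and the discrete form, for finite sets of
integers: `|S| ≥ |D| ^ (45 / 82)` and so on, if `S` contains a `k`-term progression with every common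
difference in `D`.

The discrete bounds are entropy arguments (files `Pool.Agent.K3h57.*`): a random line is chosen
among the pairs `(difference, progression)`; configurations of lines are glued along points, as
conditionally independent copies, and the submodularity inequalities for the entropies of the linear
forms in these configurations are combined (`Cert3`, `Cert4`, `Cert5`, found by linear programming).
-/

set_option autoImplicit false

open Filter Topology

namespace Pool.Agent.Results.MP_4b405e_nt.ShortProgressions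

/-- `B` contains a `k`-term progression with every common difference in `R`. -/
def HasProg {n : ℕ} (k : ℕ) (R B : Set (EuclideanSpace ℝ (Fin n))) : Prop :=
  ∀ r ∈ R, ∃ a : EuclideanSpace ℝ (Fin n), ∀ j : ℕ, j < k → a + (j : ℝ) • r ∈ B

/-- The unit cube `[0,1]^n`. -/
def cube (n : ℕ) : Set (EuclideanSpace ℝ (Fin n)) := {r | ∀ i, r i ∈ Set.Icc (0 : ℝ) 1}

/-- The least number of sets of diameter at most `δ` covering `B` (for bounded `B`). -/
noncomputable def coverNum {n : ℕ} (B : Set (EuclideanSpace ℝ (Fin n))) (δ : ℝ) : ℕ :=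
  sInf {N | ∃ U : Fin N → Set (EuclideanSpace ℝ (Fin n)),
    (∀ i, ∀ x ∈ U i, ∀ y ∈ U i, dist x y ≤ δ) ∧ B ⊆ ⋃ i, U i}

/-- Upper Minkowski dimension. -/
noncomputable def upperMinkowski {n : ℕ} (B : Set (EuclideanSpace ℝ (Fin n))) : EReal :=
  limsup (fun δ : ℝ => ((Real.log (coverNum B δ) / Real.log (1 / δ) : ℝ) : EReal)) (𝓝[>] 0)

/-- Lower Minkowski dimension. -/
noncomputable def lowerMinkowski {n : ℕ} (B : Set (EuclideanSpace ℝ (Fin n))) : EReal :=
  liminf (fun δ : ℝ => ((Real.log (coverNum B δ) / Real.log (1 / δ) : ℝ) : EReal)) (𝓝[>] 0)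

/-- `f^M_n(k)`: the infimum of the upper Minkowski dimensions of the bounded sets in `ℝ^n` that
contain a `k`-term progression with every common difference in `[0,1]^n` -/
noncomputable def fM (n k : ℕ) : EReal :=
  ⨅ (B : Set (EuclideanSpace ℝ (Fin n))) (_ : Bornology.IsBounded B) (_ : HasProg k (cube n) B),
    upperMinkowski B

/-- The exponents: `45 / 82` for three terms, `16 / 29` for four terms, `4 / 7` for at least five
terms. -/
noncomputable def bound (k : ℕ) : ℝ := if k ≤ 3 then 45 / 82 else if k = 4 then 16 / 29 else 4 / 7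

/-- for `k ≥ 3` there are `m ≤ k` and a bound for progressions with `m` terms -/
theorem base (k : ℕ) (hk : 3 ≤ k) : ∃ m : ℕ, m ≤ k ∧ ∃ c : ℝ, 0 < c ∧ 1 / c = bound k ∧
    Pool.Agent.K3h53.AP.APk m c := by
  rcases Nat.lt_or_ge 3 k with h | h
  · rcases Nat.lt_or_ge 4 k with h' | h'
    · refine ⟨5, h', 7 / 4, by norm_num, ?_, Pool.Agent.K3h57.ap5⟩
      rw [bound, if_neg (by omega), if_neg (by omega)]
      norm_num
    · refine ⟨4, h, 29 / 16, by norm_num, ?_, Pool.Agent.K3h57.ap4⟩
      rw [bound, if_neg (by omega), if_pos (by omega)]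
      norm_num
  · refine ⟨3, hk, 82 / 45, by norm_num, ?_, Pool.Agent.K3h57.ap3⟩
    rw [bound, if_pos h]
    norm_num

theorem rpow_of {c x y : ℝ} (hc : 0 < c) (hx : 0 ≤ x) (hy : 0 ≤ y) (h : x ≤ y ^ c) :
    x ^ (1 / c) ≤ y := by
  refine (Real.rpow_le_rpow hx h (by positivity)).trans ?_
  rw [← Real.rpow_mul hy, mul_one_div_cancel hc.ne', Real.rpow_one]

/-- **Theorem.** Lower bounds with the exponents `bound k` (`k ≥ 3`). -/
theorem result :
    -- a finite set of integers which contains a `k`-term progression with every common difference in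
    -- `D` has at least `|D| ^ bound k` elements
    (∀ k : ℕ, 3 ≤ k → ∀ S D : Finset ℤ,
      (∀ d ∈ D, ∃ a : ℤ, ∀ j : ℕ, j < k → a + (j : ℤ) * d ∈ S) →
        (D.card : ℝ) ^ bound k ≤ (S.card : ℝ)) ∧
    -- `f^M_n(k) ≥ n * bound k`
    (∀ n k : ℕ, 3 ≤ k → (((n : ℝ) * bound k : ℝ) : EReal) ≤ fM n k) ∧
    -- the same for the lower Minkowski dimension
    (∀ n k : ℕ, 3 ≤ k → ∀ B : Set (EuclideanSpace ℝ (Fin n)), Bornology.IsBounded B →
      HasProg k (cube n) B → (((n : ℝ) * bound k : ℝ) : EReal) ≤ lowerMinkowski B) ∧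
    -- covering numbers at every scale, for an arbitrary set `R` of common differences: `V ⊆ R` is
    -- finite and separated in the maximum norm, `U` is a finite covering of `B`
    ∀ n k : ℕ, 3 ≤ k → ∀ R B : Set (EuclideanSpace ℝ (Fin n)), HasProg k R B →
      ∀ δ : ℝ, 0 < δ → ∀ V : Finset (EuclideanSpace ℝ (Fin n)), (∀ v ∈ V, v ∈ R) →
        (∀ v ∈ V, ∀ w ∈ V, v ≠ w → ∃ i, δ ≤ |v i - w i|) →
        ∀ (ι : Type) [Fintype ι] (U : ι → Set (EuclideanSpace ℝ (Fin n))),
        (∀ i, ∀ x ∈ U i, ∀ y ∈ U i, dist x y ≤ δ) → B ⊆ ⋃ i, U i →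
        (V.card : ℝ) ^ bound k ≤ (3 * k : ℝ) ^ n * (Fintype.card ι : ℝ) := by
  classical
  refine ⟨?_, ?_, ?_, ?_⟩
  · intro k hk S D hD
    obtain ⟨m, hm, c, hc, hb, hA⟩ := base k hk
    have hex : ∀ d : ℤ, ∃ a : ℤ, d ∈ D → ∀ j : ℕ, j < k → a + (j : ℤ) * d ∈ S := by
      intro d
      by_cases hd : d ∈ D
      · obtain ⟨a, ha⟩ := hD d hd
        exact ⟨a, fun _ => ha⟩
      · exact ⟨0, fun h => absurd h hd⟩
    choose a ha using hex
    have h1 := hA (D.image fun d => (a d, d)) S
      (by
        intro z hz w hw hzw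
        obtain ⟨d, -, rfl⟩ := Finset.mem_image.1 (Finset.mem_coe.1 hz)
        obtain ⟨e, -, rfl⟩ := Finset.mem_image.1 (Finset.mem_coe.1 hw)
        have : d = e := hzw
        rw [this])
      (by
        intro z hz i hi
        obtain ⟨d, hd, rfl⟩ := Finset.mem_image.1 hz
        exact ha d hd i (by omega))
    rw [Finset.card_image_of_injective _ (fun d e h => congrArg Prod.snd h)] at h1
    rw [← hb]
    exact rpow_of hc (Nat.cast_nonneg _) (Nat.cast_nonneg _) h1
  · intro n k hk
    obtain ⟨m, hm, c, hc, hb, hA⟩ := base k hk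
    rw [← hb, mul_one_div]
    exact (Pool.Agent.K3h53.AP.port hc hA).2.2.2 n k hm
  · intro n k hk B hB hP
    obtain ⟨m, hm, c, hc, hb, hA⟩ := base k hk
    rw [← hb, mul_one_div]
    refine (Pool.Agent.K3h53.AP.port hc hA).2.2.1 n B hB ?_
    intro r hr
    obtain ⟨a, ha⟩ := hP r hr
    exact ⟨a, fun j hj => ha j (lt_of_lt_of_le hj hm)⟩
  · intro n k hk R B hP δ hδ V hV hs ι _ U hU hcov
    obtain ⟨m, hm, c, hc, hb, hA⟩ := base k hk
    have h1 := (Pool.Agent.K3h53.AP.port hc hA).1 n R B
      (fun r hr => by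
        obtain ⟨a, ha⟩ := hP r hr
        exact ⟨a, fun j hj => ha j (lt_of_lt_of_le hj hm)⟩) δ hδ V hV hs ι U hU hcov
    have h2 := rpow_of hc (Nat.cast_nonneg _) (by positivity) h1
    rw [← hb]
    refine h2.trans (mul_le_mul_of_nonneg_right ?_ (Nat.cast_nonneg _))
    have h3 : (m : ℝ) ≤ (k : ℝ) := by exact_mod_cast hm
    exact pow_le_pow_left₀ (by positivity) (by linarith) n

end Pool.Agent.Results.MP_4b405e_nt.ShortProgressions
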